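import Mathlib
import Pool.Agent.U37.MQ.Stm

/-!
# Project MQ package DIR: the directions of the circles through a point (MP_409a13_co)
-/

set_option autoImplicit false

namespace Pool.Agent.U141.MQ

open Finset Equiv Pool.Agent.U37.MQ Pool.Agent.N606.ST Pool.Agent.U671.PG

open scoped Classical

/-- the circles `g`, `h` through `X` are equal or touch at `X` -/
def par {V : Type} (X : V) (g h : Finset V) : Prop := g = h ∨ g ∩ h = {X}

theorem par_symm {V : Type} {X : V} {g h : Finset V} (p : par X g h) : par X h g := by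
  rcases p with p | p
  · exact Or.inl p.symm
  · exact Or.inr (by rw [inter_comm]; exact p)

theorem par_trans {V : Type} [Fintype V] {n : ℕ} {B : Finset (Finset V)} {X : V} (hB : Inc n B)
    {g h l : Finset V} (gB : g ∈ B) (hg : X ∈ g) (hhB : h ∈ B) (hh : X ∈ h) (lB : l ∈ B)
    (hl : X ∈ l) (p : par X g h) (q : par X h l) : par X g l := by
  rcases p with rfl | p
  · exact q
  rcases q with rfl | q
  · exact Or.inr p
  by_cases h1 : g ∩ l = {X}
  · exact Or.inr h1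
  left
  obtain ⟨z, hz, hzX⟩ : ∃ z ∈ g ∩ l, z ≠ X := by
    by_contra h2
    push Not at h2
    apply h1
    ext z
    rw [mem_singleton]
    constructor
    · exact h2 z
    · rintro rfl
      exact mem_inter.2 ⟨hg, hl⟩
  rw [mem_inter] at hz
  have hzh : z ∉ h := by
    intro h3
    apply hzX
    rw [← mem_singleton, ← p]
    exact mem_inter.2 ⟨hz.1, h3⟩
  exact hB.touch_eq h hhB X hh z hzh g gB l lB hz.1 p hz.2 (by rw [inter_comm]; exact q)

theorem par_ex {V : Type} [Fintype V] {n : ℕ} {B : Finset (Finset V)} {X : V} (hB : Inc n B)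
    {g : Finset V} (gB : g ∈ B) (hg : X ∈ g) {y : V} (_ : y ≠ X) :
    ∃ h ∈ B, X ∈ h ∧ y ∈ h ∧ par X g h := by
  by_cases h1 : y ∈ g
  · exact ⟨g, gB, hg, h1, Or.inl rfl⟩
  · obtain ⟨b, hb, hyb, hbg⟩ := hB.touch g gB X hg y h1
    refine ⟨b, hb, ?_, hyb, Or.inr ?_⟩
    · have h2 : X ∈ b ∩ g := by rw [hbg]; exact mem_singleton_self _
      exact (mem_inter.1 h2).1
    · rw [inter_comm]
      exact hbg

theorem par_uniq {V : Type} {X : V} {g h : Finset V} {y : V} (hy : y ≠ X) (hg : y ∈ g) (hh : y ∈ h)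
    (p : par X g h) : g = h := by
  rcases p with p | p
  · exact p
  · exfalso
    apply hy
    rw [← mem_singleton, ← p]
    exact mem_inter.2 ⟨hg, hh⟩

theorem t_DIR : S_DIR := by
  intro V _ n B X hn hB
  have hc : 1 < Fintype.card V := by
    rw [hB.cV]
    nlinarith
  obtain ⟨y0, hy0⟩ := Fintype.exists_ne_of_one_lt_card hc X
  have hH := hB.cxy X y0 hy0.symm
  let e := (B.filter fun b => X ∈ b ∧ y0 ∈ b).equivFinOfCardEq hH
  have hrep : ∀ g : Finset V, ∃ h : Finset V, g ∈ B → X ∈ g → h ∈ (B.filter fun b => X ∈ b ∧ y0 ∈ b) ∧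
      par X g h := by
    intro g
    by_cases hg : g ∈ B ∧ X ∈ g
    · obtain ⟨h, h1, h2, h3, h4⟩ := par_ex hB hg.1 hg.2 hy0
      exact ⟨h, fun _ _ => ⟨mem_filter.2 ⟨h1, h2, h3⟩, h4⟩⟩
    · exact ⟨g, fun h1 h2 => absurd ⟨h1, h2⟩ hg⟩
  choose r hr using hrep
  have hd : ∀ g ∈ B, X ∈ g → ∀ h ∈ B, X ∈ h → (r g = r h ↔ par X g h) := by
    intro g gB hg h hhB hh
    obtain ⟨g1, g2⟩ := hr g gB hg
    obtain ⟨h1, h2⟩ := hr h hhB hh
    rw [mem_filter] at g1 h1
    constructor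
    · intro e1
      rw [e1] at g2
      exact par_trans hB gB hg h1.1 h1.2.1 hhB hh g2 (par_symm h2)
    · intro p
      refine par_uniq hy0 g1.2.2 h1.2.2 ?_
      exact par_trans hB g1.1 g1.2.1 gB hg h1.1 h1.2.1 (par_symm g2)
        (par_trans hB gB hg hhB hh h1.1 h1.2.1 p h2)
  refine ⟨fun g => if hg : g ∈ B ∧ X ∈ g then e ⟨r g, (hr g hg.1 hg.2).1⟩ else 0, ?_, ?_⟩
  · intro g gB hg h hhB hh
    beta_reduce
    rw [dif_pos ⟨gB, hg⟩, dif_pos ⟨hhB, hh⟩, e.injective.eq_iff, Subtype.mk.injEq]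
    exact hd g gB hg h hhB hh
  · intro i y hy
    obtain ⟨h, hh⟩ : ∃ h, h = e.symm i := ⟨_, rfl⟩
    have h0 := mem_filter.1 h.2
    obtain ⟨g, g1, g2, g3, g4⟩ := par_ex hB h0.1 h0.2.1 hy
    refine ⟨g, g1, g2, g3, ?_⟩
    beta_reduce
    rw [dif_pos ⟨g1, g2⟩]
    have h5 : r g = h.1 := by
      obtain ⟨g5, g6⟩ := hr g g1 g2
      rw [mem_filter] at g5
      refine par_uniq hy0 g5.2.2 h0.2.2 ?_
      exact par_trans hB g5.1 g5.2.1 g1 g2 h0.1 h0.2.1 (par_symm g6) (par_symm g4)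
    have h6 : (⟨r g, (hr g g1 g2).1⟩ : {x // x ∈ (B.filter fun b => X ∈ b ∧ y0 ∈ b)}) = h :=
      Subtype.ext h5
    rw [h6, hh, Equiv.apply_symm_apply]

end Pool.Agent.U141.MQ
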